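import Mathlib
import Pool.Agent.Lib.MP_551055_al.Trim.LS.Coh
import Pool.Agent.Lib.MP_551055_al.Trim.LS.FFR
import Pool.Agent.Lib.MP_551055_al.Trim.LS.Final
import Pool.Agent.Lib.MP_551055_al.Trim.LS.PExt
import Pool.Agent.Lib.MP_551055_al.Trim.LS.PSes
import Pool.Agent.Lib.MP_551055_al.Trim.LS.PStmts
import Pool.Agent.Lib.MP_551055_al.Trim.LS.Stmts

/-!
# Locally perfect submodules

A module is perfect if it has a finite resolution by finitely generated projective modules. A
submodule `N` is locally perfect if every finite subset of `N` is contained in a perfect submodule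
of `N`. This file contains the ring theory: the rings over which the kernels of maps between
finitely generated free modules are locally perfect.
-/

set_option autoImplicit false

namespace Pool.Agent.Lib.MP_551055_al
end Pool.Agent.Lib.MP_551055_al

namespace Pool.Agent.Lib.MP_551055_al.LS
end Pool.Agent.Lib.MP_551055_al.LS

namespace Pool.Agent.Lib.MP_551055_al.LO

open Pool.Agent.Lib.MP_551055_al

open Pool.Agent.Lib.MP_551055_al.LS

universe u

/-- `N` is locally perfect. -/
def LP {R : Type u} [Ring R] {M : Type u} [AddCommGroup M] [Module R M] (N : Submodule R M) :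
    Prop :=
  ∀ s : Set M, s.Finite → s ⊆ N → ∃ V : Submodule R M, s ⊆ V ∧ V ≤ N ∧ ∃ d, FFR R d V

/-- The kernels of maps between finitely generated free modules are locally perfect. -/
def LPK (R : Type u) [Ring R] : Prop :=
  ∀ (n m : ℕ) (f : (Fin n → R) →ₗ[R] (Fin m → R)), LP (LinearMap.ker f)

section Rings

variable {R : Type u} [Ring R]

/-- Perfect submodules are locally perfect. -/
theorem LP.of_ffr {M : Type u} [AddCommGroup M] [Module R M] {N : Submodule R M}
    (h : ∃ d, FFR R d N) : LP N := fun _ _ hs => ⟨N, hs, le_rfl, h⟩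

/-- Regular coherent rings. -/
theorem LPK.of_regCoh (h : RegCoh R) : LPK R := fun _ _ f =>
  LP.of_ffr (exists_ffr_of_projective h (LinearMap.ker f) (fg_ker_of_free h f))

/-- Semilinear equivalences preserve locally perfect submodules. -/
theorem LP.semi {R' : Type u} [Ring R'] {σ : R →+* R'} {σ' : R' →+* R}
    [RingHomInvPair σ σ'] [RingHomInvPair σ' σ] {M M' : Type u} [AddCommGroup M] [Module R M]
    [AddCommGroup M'] [Module R' M'] (E : M ≃ₛₗ[σ] M') {N : Submodule R M}
    {N' : Submodule R' M'} (hN : ∀ y, y ∈ N ↔ E y ∈ N') (h : LP N) : LP N' := by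
  intro s hs hsN
  obtain ⟨V, h1, h2, d, h3⟩ := h (E ⁻¹' s) (hs.preimage E.injective.injOn)
    (fun y hy => (hN y).2 (hsN hy))
  refine ⟨V.map E.toLinearMap, fun y hy => ?_, ?_, d, FFR.semi d (E.submoduleMap V) h3⟩
  · exact ⟨E.symm y, h1 (by
      change E (E.symm y) ∈ s
      rwa [LinearEquiv.apply_symm_apply]), E.apply_symm_apply y⟩
  · rintro _ ⟨y, hy, rfl⟩
    exact (hN y).1 (h2 hy)

/-- Isomorphic rings. -/
theorem LPK.congr {R' : Type u} [Ring R'] (e : R ≃+* R') (h : LPK R) : LPK R' := by
  intro n m f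
  have : RingHomInvPair (e : R →+* R') (e.symm : R' →+* R) := RingHomInvPair.of_ringEquiv e
  have : RingHomInvPair (e.symm : R' →+* R) (e : R →+* R') := RingHomInvPair.symm _ _
  let En : (Fin n → R) ≃ₛₗ[(e : R →+* R')] (Fin n → R') := piSemi n
  let Em : (Fin m → R) ≃ₛₗ[(e : R →+* R')] (Fin m → R') := piSemi m
  let f₀ : (Fin n → R) →ₗ[R] (Fin m → R) := trSemi En.symm Em.symm f
  refine LP.semi En (N := LinearMap.ker f₀) (fun y => ?_) (h n m f₀)
  rw [LinearMap.mem_ker, LinearMap.mem_ker]
  change Em.symm (f (En.symm.symm y)) = 0 ↔ f (En y) = 0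
  exact map_eq_zero_iff Em.symm Em.symm.injective

/-- A map from a finitely generated free module to a free module has the kernel of a map between
finitely generated free modules. -/
theorem exists_ker_eq {E : Type u} [AddCommGroup E] [Module R E] [Module.Free R E] {n : ℕ}
    (g : (Fin n → R) →ₗ[R] E) :
    ∃ (m : ℕ) (f : (Fin n → R) →ₗ[R] (Fin m → R)), LinearMap.ker f = LinearMap.ker g := by
  classical
  let b := Module.Free.chooseBasis R E
  let t : Finset (Module.Free.ChooseBasisIndex R E) :=
    Finset.univ.biUnion fun i : Fin n => (b.repr (g (Pi.single i 1))).support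
  have ht : ∀ x ∈ LinearMap.range g, (b.repr x).support ⊆ t := by
    have hle : LinearMap.range g ≤
        (Finsupp.supported R R (t : Set _)).comap b.repr.toLinearMap := by
      rintro _ ⟨y, rfl⟩
      rw [LinearMap.pi_apply_eq_sum_univ g y]
      refine Submodule.sum_mem _ fun i _ => Submodule.smul_mem _ _ ?_
      rw [Submodule.mem_comap, Finsupp.mem_supported]
      refine Finset.coe_subset.mpr ?_
      have h1 : (fun j => if i = j then (1 : R) else 0) = Pi.single i 1 := by
        funext j
        rw [Pi.single_apply]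
        simp only [eq_comm]
      rw [h1]
      exact Finset.subset_biUnion_of_mem (fun i : Fin n => (b.repr (g (Pi.single i 1))).support)
        (Finset.mem_univ i)
    intro x hx
    have h1 := hle hx
    rw [Submodule.mem_comap, Finsupp.mem_supported] at h1
    exact Finset.coe_subset.mp h1
  let e : Fin t.card ≃ t := (Fintype.equivFinOfCardEq (by simp)).symm
  let j : E →ₗ[R] (Fin t.card → R) :=
    LinearMap.pi fun i => (Finsupp.lapply (e i : Module.Free.ChooseBasisIndex R E)) ∘ₗ
      b.repr.toLinearMap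
  have hj : ∀ x i, j x i = b.repr x (e i) := fun x i => rfl
  refine ⟨t.card, j ∘ₗ g, le_antisymm (fun y hy => ?_) fun y hy => ?_⟩
  · rw [LinearMap.mem_ker, LinearMap.comp_apply] at hy
    rw [LinearMap.mem_ker]
    apply b.repr.injective
    rw [map_zero]
    ext k
    rw [Finsupp.zero_apply]
    by_contra hk
    have hkt : k ∈ t := ht (g y) ⟨y, rfl⟩ (Finsupp.mem_support_iff.mpr hk)
    have h1 := congrFun hy (e.symm ⟨k, hkt⟩)
    rw [hj, Equiv.apply_symm_apply] at h1
    exact hk h1
  · rw [LinearMap.mem_ker] at hy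
    rw [LinearMap.mem_ker, LinearMap.comp_apply, hy, map_zero]

/-- The kernel of a map from a perfect module to a free module is locally perfect. -/
theorem lp_ker (h : LPK R) {M E : Type u} [AddCommGroup M] [Module R M] [AddCommGroup E]
    [Module R E] [Module.Free R E] (hM : ∃ d, FFR R d M) (g : M →ₗ[R] E) :
    LP (LinearMap.ker g) := by
  obtain ⟨d, hd⟩ := hM
  obtain ⟨n, π, hπ, hk⟩ := hd.succ
  obtain ⟨m, f, hf⟩ := exists_ker_eq (g ∘ₗ π)
  intro s hs hsg
  -- lifts
  have hfgk : (LinearMap.ker π).FG := Module.Finite.iff_fg.1 hk.finite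
  obtain ⟨t, ht⟩ := hfgk
  let σ : M → (Fin n → R) := fun y => (hπ y).choose
  have hσ : ∀ y, π (σ y) = y := fun y => (hπ y).choose_spec
  obtain ⟨V, h1, h2, dV, h3⟩ := h n m f (σ '' s ∪ t) ((hs.image σ).union t.finite_toSet) (by
    rw [hf]
    rintro y (⟨x, hx, rfl⟩ | hy)
    · change g (π (σ x)) = 0
      rw [hσ]
      exact hsg hx
    · have h4 : y ∈ LinearMap.ker π := by
        rw [← ht]
        exact Submodule.subset_span hy
      change g (π y) = 0
      rw [LinearMap.mem_ker.1 h4, map_zero])
  have hKV : LinearMap.ker π ≤ V := by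
    rw [← ht, Submodule.span_le]
    exact fun y hy => h1 (Or.inr hy)
  refine ⟨V.map π, fun y hy => ⟨σ y, h1 (Or.inl ⟨y, hy, rfl⟩), hσ y⟩, ?_, ?_⟩
  · rintro _ ⟨y, hy, rfl⟩
    have h4 := h2 hy
    rw [hf] at h4
    exact h4
  · have hext : StPSes.{u} := stPSes stPExt
    let q : V →ₗ[R] V.map π := π.restrict fun y hy => ⟨y, hy, rfl⟩
    refine ⟨max d dV + 1, hext R (max d dV) (LinearMap.ker π) V (V.map π)
      (Submodule.inclusion hKV) q (Submodule.inclusion_injective hKV) ?_ ?_
      (hk.mono (le_max_left _ _)) (h3.mono (le_max_right _ _))⟩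
    · rintro ⟨_, y, hy, rfl⟩
      exact ⟨⟨y, hy⟩, rfl⟩
    · ext y
      rw [LinearMap.mem_range, LinearMap.mem_ker]
      constructor
      · rintro ⟨x, rfl⟩
        exact Subtype.ext (LinearMap.mem_ker.1 x.2)
      · intro hy
        exact ⟨⟨y.1, LinearMap.mem_ker.2 (congrArg Subtype.val hy)⟩, rfl⟩

/-- A locally perfect submodule inside a smaller ambient module. -/
theorem LP.map_subtype {M : Type u} [AddCommGroup M] [Module R M] {T : Submodule R M}
    {N : Submodule R T} (h : LP N) : LP (N.map T.subtype) := by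
  intro s hs hsN
  obtain ⟨V, h1, h2, d, h3⟩ := h (T.subtype ⁻¹' s) (hs.preimage T.injective_subtype.injOn) (by
    intro y hy
    obtain ⟨z, hz, hzy⟩ := hsN hy
    have h4 : z = y := Subtype.ext hzy
    rwa [← h4])
  refine ⟨V.map T.subtype, fun y hy => ?_, Submodule.map_mono h2, d,
    h3.congr (Submodule.equivMapOfInjective _ T.injective_subtype V)⟩
  obtain ⟨z, hz, hzy⟩ := hsN hy
  exact ⟨z, h1 (by
    change T.subtype z ∈ s
    rwa [hzy]), hzy⟩

/-- The vectors of a perfect submodule `T` which are killed by a map to a free module. -/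
theorem lp_sub (h : LPK R) {M E : Type u} [AddCommGroup M] [Module R M] [AddCommGroup E]
    [Module R E] [Module.Free R E] (T A : Submodule R M) (hT : ∃ d, FFR R d T) (g : T →ₗ[R] E)
    (hA : ∀ y : T, g y = 0 ↔ (y : M) ∈ A) (hAT : A ≤ T) : LP A := by
  have h1 := (lp_ker h hT g).map_subtype
  have h2 : (LinearMap.ker g).map T.subtype = A := by
    ext y
    constructor
    · rintro ⟨z, hz, rfl⟩
      exact (hA z).1 hz
    · intro hy
      exact ⟨⟨y, hAT hy⟩, (hA ⟨y, hAT hy⟩).2 hy, rfl⟩
  rwa [h2] at h1

end Rings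

end Pool.Agent.Lib.MP_551055_al.LO
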