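import Mathlib
import Pool.Agent.Lib.MP_551055_al.Trim.LO.Base
import Pool.Agent.Lib.MP_551055_al.Trim.LS.FFR
import Pool.Agent.Lib.MP_551055_al.Trim.LS.Final
import Pool.Agent.Lib.MP_551055_al.Trim.LS.Pos
import Pool.Agent.Lib.MP_551055_al.Trim.LS.Stmts
import Pool.Agent.Lib.MP_551055_al.Trim.Red.Orb

/-!
# Graded submodules with perfect parts

If all parts of a graded submodule `B` are locally perfect, then every finite subset of `B` is
contained in a graded submodule of `B` with perfect parts.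
-/

set_option autoImplicit false

namespace Pool.Agent.Lib.MP_551055_al
end Pool.Agent.Lib.MP_551055_al

namespace Pool.Agent.Lib.MP_551055_al.LS
end Pool.Agent.Lib.MP_551055_al.LS

namespace Pool.Agent.Lib.MP_551055_al.Red
end Pool.Agent.Lib.MP_551055_al.Red

namespace Pool.Agent.Lib.MP_551055_al.LO

open Pool.Agent.Lib.MP_551055_al

open Pool.Agent.Lib.MP_551055_al.LS

open Pool.Agent.Lib.MP_551055_al.Red (Vec)

universe u v

section Conj

variable {Γ : Type u} [Group Γ] {X : Type v} [MulAction Γ X] {ι : Type}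

/-- The stabilisers of `x` and `γ x` are conjugate. -/
def conjE (γ : Γ) (x : X) : MulAction.stabilizer Γ x ≃* MulAction.stabilizer Γ (γ • x) where
  toFun δ := ⟨γ * δ * γ⁻¹, by
    have h : (δ : Γ) • x = x := δ.2
    rw [MulAction.mem_stabilizer_iff, mul_smul, mul_smul, inv_smul_smul, h]⟩
  invFun δ := ⟨γ⁻¹ * δ * γ, by
    have h : (δ : Γ) • (γ • x) = γ • x := δ.2
    rw [MulAction.mem_stabilizer_iff, mul_smul, mul_smul, h, inv_smul_smul]⟩
  left_inv δ := Subtype.ext (by
    change γ⁻¹ * (γ * δ * γ⁻¹) * γ = δ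
    group)
  right_inv δ := Subtype.ext (by
    change γ * (γ⁻¹ * δ * γ) * γ⁻¹ = δ
    group)
  map_mul' a b := Subtype.ext (by
    change γ * (a * b) * γ⁻¹ = γ * a * γ⁻¹ * (γ * b * γ⁻¹)
    group)

/-- A vector as a vector over the group ring of the stabiliser of `x`. -/
abbrev toV (x : X) (y : F Γ ι) : Vec (MulAction.stabilizer Γ x) ι := y

/-- Multiplication by `γ`. -/
noncomputable def mulE (γ : Γ) : F Γ ι ≃+ F Γ ι where
  toFun y := (MonoidAlgebra.single γ (1 : ℤ) : ZG Γ) • y
  invFun y := (MonoidAlgebra.single γ⁻¹ (1 : ℤ) : ZG Γ) • y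
  left_inv y := by
    change (MonoidAlgebra.single γ⁻¹ (1 : ℤ) : ZG Γ) •
      ((MonoidAlgebra.single γ (1 : ℤ) : ZG Γ) • y) = y
    rw [smul_smul, MonoidAlgebra.single_mul_single, inv_mul_cancel, one_mul,
      ← MonoidAlgebra.one_def, one_smul]
  right_inv y := by
    change (MonoidAlgebra.single γ (1 : ℤ) : ZG Γ) •
      ((MonoidAlgebra.single γ⁻¹ (1 : ℤ) : ZG Γ) • y) = y
    rw [smul_smul, MonoidAlgebra.single_mul_single, mul_inv_cancel, one_mul,
      ← MonoidAlgebra.one_def, one_smul]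
  map_add' a b := smul_add _ _ _

theorem mulE_apply (γ : Γ) (y : F Γ ι) :
    mulE γ y = (MonoidAlgebra.single γ (1 : ℤ) : ZG Γ) • y := rfl

theorem mulE_in_iff (p : ι → X) (γ : Γ) (x : X) (y : F Γ ι) :
    In p {γ • x} (mulE γ y) ↔ In p {x} y := by
  constructor
  · intro h
    have h1 := h.smul_singleton γ⁻¹ 1
    rw [inv_smul_smul] at h1
    have h2 : (MonoidAlgebra.single γ⁻¹ (1 : ℤ) : ZG Γ) • mulE γ y = y :=
      (mulE (ι := ι) γ).symm_apply_apply y
    rwa [h2] at h1
  · exact fun h => h.smul_singleton γ 1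

theorem mulE_mem_iff (B : Submodule (ZG Γ) (F Γ ι)) (γ : Γ) (y : F Γ ι) :
    mulE γ y ∈ B ↔ y ∈ B := by
  constructor
  · intro h
    have h1 := B.smul_mem (MonoidAlgebra.single γ⁻¹ (1 : ℤ)) h
    have h2 : (MonoidAlgebra.single γ⁻¹ (1 : ℤ) : ZG Γ) • mulE γ y = y :=
      (mulE (ι := ι) γ).symm_apply_apply y
    rwa [h2] at h1
  · exact fun h => B.smul_mem _ h

/-- The statement about parts at `x` and at `γ x`. -/
theorem conj_aux (γ : Γ) (x : X) :
    ∃ (σ : MonoidAlgebra ℤ (MulAction.stabilizer Γ x) →+*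
        MonoidAlgebra ℤ (MulAction.stabilizer Γ (γ • x)))
      (σ' : MonoidAlgebra ℤ (MulAction.stabilizer Γ (γ • x)) →+*
        MonoidAlgebra ℤ (MulAction.stabilizer Γ x))
      (_ : RingHomInvPair σ σ') (_ : RingHomInvPair σ' σ)
      (E : Vec (MulAction.stabilizer Γ x) ι ≃ₛₗ[σ] Vec (MulAction.stabilizer Γ (γ • x)) ι),
      ∀ y, E y = (mulE γ (asF y) : F Γ ι) := by
  let e := MonoidAlgebra.mapDomainRingEquiv ℤ (conjE γ x)
  have h1 : RingHomInvPair (e : MonoidAlgebra ℤ (MulAction.stabilizer Γ x) →+*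
      MonoidAlgebra ℤ (MulAction.stabilizer Γ (γ • x)))
      (e.symm : MonoidAlgebra ℤ (MulAction.stabilizer Γ (γ • x)) →+*
      MonoidAlgebra ℤ (MulAction.stabilizer Γ x)) := RingHomInvPair.of_ringEquiv e
  have h2 : RingHomInvPair
      (e.symm : MonoidAlgebra ℤ (MulAction.stabilizer Γ (γ • x)) →+*
      MonoidAlgebra ℤ (MulAction.stabilizer Γ x))
      (e : MonoidAlgebra ℤ (MulAction.stabilizer Γ x) →+*
      MonoidAlgebra ℤ (MulAction.stabilizer Γ (γ • x))) := RingHomInvPair.symm _ _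
  have hes : ∀ (δ : MulAction.stabilizer Γ x) (c : ℤ),
      e (MonoidAlgebra.single δ c) = MonoidAlgebra.single (conjE γ x δ) c := fun δ c =>
    MonoidAlgebra.mapDomain_single
  have key : ∀ (s : MonoidAlgebra ℤ (MulAction.stabilizer Γ x))
      (y : Vec (MulAction.stabilizer Γ x) ι),
      (mulE γ (asF (s • y)) : F Γ ι) =
        ((e s • (show Vec (MulAction.stabilizer Γ (γ • x)) ι from
          (mulE γ (asF y) : F Γ ι)) : Vec (MulAction.stabilizer Γ (γ • x)) ι) : F Γ ι) := by
    intro s y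
    induction s using MonoidAlgebra.induction_linear with
    | zero =>
      rw [map_zero, zero_smul, zero_smul]
      exact map_zero (mulE γ)
    | add a b ha hb =>
      rw [map_add, add_smul, add_smul, ← ha, ← hb]
      exact map_add (mulE γ) _ _
    | single δ c =>
      rw [hes]
      have h3 := vec_single δ c y
      have h4 := vec_single (conjE γ x δ) c
        (show Vec (MulAction.stabilizer Γ (γ • x)) ι from (mulE γ (asF y) : F Γ ι))
      refine Eq.trans (congrArg (mulE γ) h3) (Eq.trans ?_ h4.symm)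
      rw [mulE_apply]
      change _ = (MonoidAlgebra.single (γ * δ * γ⁻¹) c : ZG Γ) •
        ((MonoidAlgebra.single γ (1 : ℤ) : ZG Γ) • asF y)
      rw [smul_smul, smul_smul, MonoidAlgebra.single_mul_single, MonoidAlgebra.single_mul_single,
        inv_mul_cancel_right, one_mul, mul_one]
  refine ⟨_, _, h1, h2, { toFun := fun y => (mulE γ (asF y) : F Γ ι)
                          map_add' := fun a b => map_add (mulE γ) _ _
                          map_smul' := fun s y => key s y
                          invFun := fun y => ((mulE γ).symm (asF y) : F Γ ι)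
                          left_inv := fun y => (mulE γ).symm_apply_apply _
                          right_inv := fun y => (mulE γ).apply_symm_apply _ }, fun y => rfl⟩

variable (B : Submodule (ZG Γ) (F Γ ι)) (p : ι → X)

theorem mem_homIn_smul (γ : Γ) (x : X) (y : F Γ ι) :
    toV x y ∈ homIn B p x ↔ toV (γ • x) (mulE γ y) ∈ homIn B p (γ • x) := by
  change (In p {x} y ∧ y ∈ B) ↔ (In p {γ • x} (mulE γ y) ∧ mulE γ y ∈ B)
  rw [mulE_in_iff, mulE_mem_iff]

/-- Parts at `γ x` are locally perfect if the parts at `x` are. -/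
theorem lp_homIn_smul (γ : Γ) (x : X) (h : LP (homIn B p x)) : LP (homIn B p (γ • x)) := by
  obtain ⟨σ, σ', h1, h2, E, hE⟩ := conj_aux (ι := ι) γ x
  refine LP.semi E (fun y => ?_) h
  rw [hE]
  exact mem_homIn_smul B p γ x y

/-- Parts at `γ x` are perfect if the parts at `x` are. -/
theorem ffr_homIn_smul (γ : Γ) (x : X)
    (h : ∃ d, FFR (MonoidAlgebra ℤ (MulAction.stabilizer Γ x)) d (homIn B p x)) :
    ∃ d, FFR (MonoidAlgebra ℤ (MulAction.stabilizer Γ (γ • x))) d (homIn B p (γ • x)) := by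
  obtain ⟨σ, σ', h1, h2, E, hE⟩ := conj_aux (ι := ι) γ x
  obtain ⟨d, hd⟩ := h
  refine ⟨d, (FFR.semi d (E.submoduleMap (homIn B p x)) hd).congr (LinearEquiv.ofEq _ _ ?_)⟩
  ext z
  constructor
  · rintro ⟨y, hy, rfl⟩
    have h3 := (mem_homIn_smul B p γ x y).1 hy
    change E y ∈ homIn B p (γ • x)
    rw [hE]
    exact h3
  · intro hz
    refine ⟨E.symm z, ?_, E.apply_symm_apply z⟩
    rw [SetLike.mem_coe, mem_homIn_smul B p γ x]
    have h3 : (mulE γ (asF (E.symm z)) : F Γ ι) = z := by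
      have h4 := E.apply_symm_apply z
      rwa [hE] at h4
    change toV (γ • x) (mulE γ (asF (E.symm z))) ∈ homIn B p (γ • x)
    rw [h3]
    exact hz

end Conj

section Pf

variable {Γ : Type u} [Group Γ] {X : Type v} [MulAction Γ X] {ι : Type}

/-- Representatives of the orbits. -/
theorem exists_rep (Γ : Type u) [Group Γ] (X : Type v) [MulAction Γ X] :
    ∃ (R : X → X) (τ : X → Γ), (∀ x, τ x • x = R x) ∧ (∀ (γ : Γ) x, R (γ • x) = R x) := by
  let q : X → MulAction.orbitRel.Quotient Γ X := fun x => Quotient.mk _ x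
  have hq : ∀ (γ : Γ) x, q (γ • x) = q x := fun γ x => Quotient.sound ⟨γ, rfl⟩
  have h1 : ∀ x, ∃ γ : Γ, γ • x = (q x).out := by
    intro x
    have h2 : MulAction.orbitRel Γ X (q x).out x := Quotient.exact (Quotient.out_eq (q x))
    rw [MulAction.orbitRel_apply] at h2
    exact h2
  choose τ hτ using h1
  exact ⟨fun x => (q x).out, τ, hτ, fun γ x => by
    change (q (γ • x)).out = (q x).out
    rw [hq]⟩

/-- The graded submodule with given parts at the representatives. -/
noncomputable def grd (p : ι → X) (R : X → X)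
    (W : ∀ x : X, Submodule (MonoidAlgebra ℤ (MulAction.stabilizer Γ x))
      (Vec (MulAction.stabilizer Γ x) ι)) : Submodule (ZG Γ) (F Γ ι) where
  carrier := {y | ∀ (γ : Γ) (x : X), R x = x →
    toV x (pr p {x} ((MonoidAlgebra.single γ (1 : ℤ) : ZG Γ) • y)) ∈ W x}
  add_mem' {a b} ha hb γ x hx := by
    rw [smul_add, map_add]
    exact (W x).add_mem (ha γ x hx) (hb γ x hx)
  zero_mem' γ x _ := by
    rw [smul_zero, map_zero]
    exact (W x).zero_mem
  smul_mem' s y h := by
    refine smul_induction (Q := fun y => ∀ (γ : Γ) (x : X), R x = x →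
      toV x (pr p {x} ((MonoidAlgebra.single γ (1 : ℤ) : ZG Γ) • y)) ∈ W x)
      (fun γ x _ => ?_) (fun a b ha hb γ x hx => ?_) (fun δ c γ x hx => ?_) s
    · rw [smul_zero, map_zero]
      exact (W x).zero_mem
    · rw [smul_add, map_add]
      exact (W x).add_mem (ha γ x hx) (hb γ x hx)
    · have h1 : (MonoidAlgebra.single γ (1 : ℤ) : ZG Γ) •
          ((MonoidAlgebra.single δ c : ZG Γ) • y) =
          c • ((MonoidAlgebra.single (γ * δ) (1 : ℤ) : ZG Γ) • y) := by
        rw [smul_smul, MonoidAlgebra.single_mul_single, one_mul]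
        refine F_ext fun i g => ?_
        change _ = (c • (((MonoidAlgebra.single (γ * δ) (1 : ℤ) : ZG Γ) • y) i)).coeff g
        rw [MonoidAlgebra.coeff_smul, Finsupp.smul_apply, single_smul_coeff, single_smul_coeff,
          one_mul, smul_eq_mul]
      rw [h1, map_zsmul]
      exact (W x).toAddSubgroup.zsmul_mem (h (γ * δ) x hx) c

/-- Group elements of the stabiliser act on parts. -/
theorem stab_smul_mem {x : X} (W : Submodule (MonoidAlgebra ℤ (MulAction.stabilizer Γ x))
    (Vec (MulAction.stabilizer Γ x) ι)) {γ : Γ} (hγ : γ • x = x) {y : F Γ ι}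
    (hy : toV x y ∈ W) : toV x ((MonoidAlgebra.single γ (1 : ℤ) : ZG Γ) • y) ∈ W := by
  have h1 := W.smul_mem (MonoidAlgebra.single (⟨γ, hγ⟩ : MulAction.stabilizer Γ x) (1 : ℤ)) hy
  rw [vec_single] at h1
  exact h1

/-- The main lemma: graded submodules with locally perfect parts. -/
theorem exists_pf [Finite ι] (p : ι → X) (B : Submodule (ZG Γ) (F Γ ι))
    (hB : ∀ P, ∀ y ∈ B, pr p P y ∈ B) (hlp : ∀ i, LP (homIn B p (p i))) (S : Set (F Γ ι))
    (hS : S.Finite) (hSB : S ⊆ B) :
    ∃ B' : Submodule (ZG Γ) (F Γ ι), B' ≤ B ∧ S ⊆ B' ∧ (∀ P, ∀ y ∈ B', pr p P y ∈ B') ∧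
      ∀ i, ∃ d, FFR (MonoidAlgebra ℤ (MulAction.stabilizer Γ (p i))) d (homIn B' p (p i)) := by
  classical
  obtain ⟨R, τ, hτ, hR⟩ := exists_rep Γ X
  have hRR : ∀ x, R (R x) = R x := fun x => by
    conv_lhs => rw [← hτ x, hR]
  -- the finite sets of positions
  choose t ht ht' using fun y : F Γ ι => exists_sum_pr p y
  let Sx : ∀ x : X, Set (Vec (MulAction.stabilizer Γ x) ι) := fun x =>
    {z | ∃ y ∈ S, ∃ w ∈ t y, R w = x ∧
      z = toV x ((MonoidAlgebra.single (τ w) (1 : ℤ) : ZG Γ) • pr p {w} y)}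
  have hSx : ∀ x, (Sx x).Finite := by
    intro x
    have h1 : (⋃ y ∈ S, ⋃ w ∈ t y, {toV x ((MonoidAlgebra.single (τ w) (1 : ℤ) : ZG Γ) •
        pr p {w} y)}).Finite :=
      hS.biUnion fun y _ => (t y).finite_toSet.biUnion fun w _ => Set.finite_singleton _
    refine h1.subset ?_
    rintro z ⟨y, hy, w, hw, -, rfl⟩
    exact Set.mem_biUnion hy (Set.mem_biUnion hw rfl)
  have hSxB : ∀ x, Sx x ⊆ homIn B p x := by
    rintro x z ⟨y, hy, w, hw, hwx, rfl⟩
    have h1 : In p {w} (pr p {w} y) := in_pr p {w} y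
    have h2 := h1.smul_singleton (τ w) 1
    rw [hτ, hwx] at h2
    exact ⟨h2, B.smul_mem _ (hB {w} y (hSB hy))⟩
  -- the parts at the representatives
  have hex : ∀ x, ∃ W : Submodule (MonoidAlgebra ℤ (MulAction.stabilizer Γ x))
      (Vec (MulAction.stabilizer Γ x) ι),
      W ≤ homIn B p x ∧ ((∃ i, R (p i) = x) →
        Sx x ⊆ W ∧
          ∃ d, FFR (MonoidAlgebra ℤ (MulAction.stabilizer Γ x)) d W) := by
    intro x
    by_cases hx : ∃ i, R (p i) = x
    · obtain ⟨i, hi⟩ := hx
      have h1 := lp_homIn_smul B p (τ (p i)) (p i) (hlp i)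
      rw [hτ, hi] at h1
      obtain ⟨W, h2, h3, h4⟩ := h1 (Sx x) (hSx x) (hSxB x)
      exact ⟨W, h3, fun _ => ⟨h2, h4⟩⟩
    · exact ⟨⊥, bot_le, fun h => absurd h hx⟩
  choose W hWB hW using hex
  -- positions
  have hpos : ∀ (y : F Γ ι) (w : X), pr p {w} y ≠ 0 → ∃ i, R (p i) = R w := by
    intro y w hne
    by_contra hno
    apply hne
    refine F_ext fun i γ => ?_
    rw [pr_coeff]
    split_ifs with h
    · refine absurd ⟨i, ?_⟩ hno
      rw [← Set.mem_singleton_iff.1 h, hR]
    · rfl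
  have hgr : ∀ P, ∀ y ∈ grd p R W, pr p P y ∈ grd p R W := by
    intro P y hy γ x hx
    have h1 : pr p {x} ((MonoidAlgebra.single γ (1 : ℤ) : ZG Γ) • pr p P y) =
        (MonoidAlgebra.single γ (1 : ℤ) : ZG Γ) • pr p {γ⁻¹ • x} (pr p P y) := by
      have h2 := pr_smul_singleton p (γ⁻¹ • x) γ 1 (pr p P y)
      rwa [smul_inv_smul] at h2
    rw [h1, pr_pr]
    by_cases hP : γ⁻¹ • x ∈ P
    · rw [Set.inter_eq_left.2 (Set.singleton_subset_iff.2 hP)]
      have h2 := pr_smul_singleton p (γ⁻¹ • x) γ 1 y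
      rw [smul_inv_smul] at h2
      rw [← h2]
      exact hy γ x hx
    · rw [(Set.disjoint_singleton_left.2 hP).inter_eq, pr_empty, smul_zero]
      exact (W x).zero_mem
  -- the parts at the representatives
  have hpart : ∀ x, R x = x → homIn (grd p R W) p x = W x := by
    intro x hx
    ext y
    constructor
    · rintro ⟨h1, h2⟩
      have h3 := h2 1 x hx
      rw [← MonoidAlgebra.one_def, one_smul] at h3
      have h4 : pr p {x} (asF y) = asF y := h1
      rw [h4] at h3
      exact h3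
    · intro hy
      have h1 : In p {x} (asF y) := (hWB x hy).1
      refine ⟨h1, fun γ z hz => ?_⟩
      have h2 := h1.smul_singleton γ 1
      by_cases hγ : γ • x = z
      · have h3 : z = x := by
          rw [← hz, ← hγ, hR, hx]
        subst h3
        rw [hγ] at h2
        have h4 := h2.eq
        change pr p {z} ((MonoidAlgebra.single γ (1 : ℤ) : ZG Γ) • asF y) ∈ W z
        rw [h4]
        exact stab_smul_mem (W z) hγ hy
      · have h3 := h2.pr_eq_zero (Set.disjoint_singleton.2 (Ne.symm hγ))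
        change pr p {z} ((MonoidAlgebra.single γ (1 : ℤ) : ZG Γ) • asF y) ∈ W z
        rw [h3]
        exact (W z).zero_mem
  refine ⟨grd p R W, fun y hy => ?_, fun y hy γ x hx => ?_, hgr, fun i => ?_⟩
  · -- contained in `B`
    rw [ht' y]
    refine Submodule.sum_mem _ fun w _ => ?_
    have h1 := hy (τ w) (R w) (hRR w)
    have h2 := pr_smul_singleton p w (τ w) 1 y
    rw [hτ] at h2
    rw [h2] at h1
    have h3 := (hWB (R w) h1).2
    exact (mulE_mem_iff B (τ w) (pr p {w} y)).1 h3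
  · -- contains `S`
    have h1 : pr p {x} ((MonoidAlgebra.single γ (1 : ℤ) : ZG Γ) • y) =
        (MonoidAlgebra.single γ (1 : ℤ) : ZG Γ) • pr p {γ⁻¹ • x} y := by
      have h2 := pr_smul_singleton p (γ⁻¹ • x) γ 1 y
      rwa [smul_inv_smul] at h2
    rw [h1]
    generalize hw : γ⁻¹ • x = w
    have hγw : γ • w = x := by rw [← hw, smul_inv_smul]
    have hRw : R w = x := by rw [← hw, hR, hx]
    by_cases hne : pr p {w} y = 0
    · rw [hne, smul_zero]
      exact (W x).zero_mem
    · have hwt : w ∈ t y := by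
        by_contra hn
        exact hne ((ht y).pr_eq_zero (Set.disjoint_singleton_left.2 hn))
      obtain ⟨i, hi⟩ := hpos y w hne
      rw [hRw] at hi
      have h2 := (hW x ⟨i, hi⟩).1 (show _ ∈ Sx x from ⟨y, hy, w, hwt, hRw, rfl⟩)
      have h3 : (γ * (τ w)⁻¹) • x = x := by
        rw [mul_smul, ← hRw, ← hτ, inv_smul_smul, hγw, hτ, hRw]
      have h4 := stab_smul_mem (W x) h3 h2
      rw [smul_smul, MonoidAlgebra.single_mul_single, inv_mul_cancel_right, one_mul] at h4
      exact h4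
  · -- perfect parts
    have h1 := (hW (R (p i)) ⟨i, rfl⟩).2
    rw [← hpart (R (p i)) (hRR _)] at h1
    have h2 := ffr_homIn_smul (grd p R W) p (τ (p i))⁻¹ (R (p i)) h1
    have h3 : (τ (p i))⁻¹ • R (p i) = p i := by rw [← hτ, inv_smul_smul]
    rwa [h3] at h2

end Pf

end Pool.Agent.Lib.MP_551055_al.LO
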