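import Mathlib
import Pool.Agent.Lib.MP_551055_al.Trim.LO.Base
import Pool.Agent.Lib.MP_551055_al.Trim.LO.Pf
import Pool.Agent.Lib.MP_551055_al.Trim.LS.FFR
import Pool.Agent.Lib.MP_551055_al.Trim.LS.Nil
import Pool.Agent.Lib.MP_551055_al.Trim.LS.PExt
import Pool.Agent.Lib.MP_551055_al.Trim.LS.PSes
import Pool.Agent.Lib.MP_551055_al.Trim.LS.PStmts
import Pool.Agent.Lib.MP_551055_al.Trim.LS.Pos
import Pool.Agent.Lib.MP_551055_al.Trim.LS.Stmts
import Pool.Agent.Lib.MP_551055_al.Trim.Red.Orb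

/-!
# Nilpotent maps along a relation, stabilisers with locally perfect kernels

The filtration is constructed from the top: `⊤ = M₀ ≥ M₁ ≥ ... ≥ M_k = ⊥`, graded submodules with
perfect parts such that `ν M_j ≤ M_(j+1)` and `M_j ≤ ker ν^(k-j)`.
-/

set_option autoImplicit false

namespace Pool.Agent.Lib.MP_551055_al
end Pool.Agent.Lib.MP_551055_al

namespace Pool.Agent.Lib.MP_551055_al.LS
end Pool.Agent.Lib.MP_551055_al.LS

namespace Pool.Agent.Lib.MP_551055_al.Red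
end Pool.Agent.Lib.MP_551055_al.Red

namespace Pool.Agent.Lib.MP_551055_al.LO

open Pool.Agent.Lib.MP_551055_al

open Pool.Agent.Lib.MP_551055_al.LS

open Pool.Agent.Lib.MP_551055_al.Red (Vec)

universe u v

/-- Module NilL. Nilpotent maps along `r` have class zero if the kernels over the group rings of the
stabilisers are locally perfect. -/
def StNilL : Prop :=
  ∀ (Γ : Type u) [Group Γ] (K : K1C (ZG Γ)) (X : Type v) [MulAction Γ X] (r : X → X → Prop),
    UR (Γ := Γ) r → ∀ (ι : Type) [Finite ι] (p : ι → X) (ν : Module.End (ZG Γ) (F Γ ι)),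
    IsNilpotent ν → Tr r p p ν →
    (∀ i, LPK (MonoidAlgebra ℤ (MulAction.stabilizer Γ (p i)))) →
    K.G ((1 : Module.End (ZG Γ) (F Γ ι)) + ν)

/-- The quotient of perfect submodules. -/
theorem ffr_quot {R : Type u} [Ring R] {M : Type u} [AddCommGroup M] [Module R M]
    {A B : Submodule R M} (hAB : A ≤ B) (hA : ∃ d, FFR R d A) (hB : ∃ d, FFR R d B) :
    ∃ d, FFR R d (B ⧸ A.submoduleOf B) := by
  obtain ⟨a, ha⟩ := hA
  obtain ⟨b, hb⟩ := hB
  refine ⟨max a b + 1, stPSes stPExt R (max a b) A B (B ⧸ A.submoduleOf B)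
    (Submodule.inclusion hAB) (A.submoduleOf B).mkQ (Submodule.inclusion_injective hAB)
    (Submodule.mkQ_surjective _) ?_ (ha.mono (le_max_left _ _)) (hb.mono (le_max_right _ _))⟩
  rw [Submodule.ker_mkQ]
  exact Submodule.range_inclusion A B hAB

section

variable {Γ : Type u} [Group Γ] {X : Type v} [MulAction Γ X] {ι : Type}

/-- Graded submodules with perfect parts are perfect. -/
theorem ffr_of_parts (hInd : StInd.{u, v}) [Finite ι] (p : ι → X)
    (B : Submodule (ZG Γ) (F Γ ι)) (hB : ∀ P, ∀ y ∈ B, pr p P y ∈ B)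
    (h : ∀ i, ∃ d, FFR (MonoidAlgebra ℤ (MulAction.stabilizer Γ (p i))) d (homIn B p (p i))) :
    ∃ d, FFR (ZG Γ) d B := by
  classical
  choose D hD using h
  have := Fintype.ofFinite ι
  have h1 := hInd Γ X (Finset.univ.sup D) ι p ⊥ B bot_le
    (fun Q y hy => by
      rw [(Submodule.mem_bot (ZG Γ)).1 hy, map_zero]
      exact Submodule.zero_mem _)
    hB (fun i => by
      refine ((hD i).congr (Submodule.quotEquivOfEqBot _ ?_).symm).mono
        (Finset.le_sup (f := D) (Finset.mem_univ i))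
      rw [eq_bot_iff]
      intro y hy
      have h2 : asF y.1 ∈ (⊥ : Submodule (ZG Γ) (F Γ ι)) := hy.2
      have h3 : asF y.1 = 0 := (Submodule.mem_bot (ZG Γ)).1 h2
      exact (Submodule.mem_bot _).2 (Subtype.ext h3))
  refine ⟨_, h1.congr (Submodule.quotEquivOfEqBot _ ?_)⟩
  rw [eq_bot_iff]
  intro y hy
  exact (Submodule.mem_bot (ZG Γ)).2 (Subtype.ext ((Submodule.mem_bot (ZG Γ)).1 hy))

/-- The properties of the steps of the filtration. -/
structure Stp (p : ι → X) (ν : Module.End (ZG Γ) (F Γ ι)) (k j : ℕ)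
    (B : Submodule (ZG Γ) (F Γ ι)) : Prop where
  gr : ∀ P, ∀ y ∈ B, pr p P y ∈ B
  le : B ≤ kerFil p ν (k - j)
  inv : ∀ y ∈ B, ν y ∈ B
  ffr : ∀ i, ∃ d, FFR (MonoidAlgebra ℤ (MulAction.stabilizer Γ (p i))) d (homIn B p (p i))

theorem exists_step (hInd : StInd.{u, v}) (hVec : StVecFree.{u}) [Finite ι] (p : ι → X)
    (ν : Module.End (ZG Γ) (F Γ ι)) (k : ℕ) (f0 : kerFil p ν 0 = ⊥)
    (fν : ∀ i, ∀ y ∈ kerFil p ν (i + 1), ν y ∈ kerFil p ν i)
    (fgr : ∀ i P, ∀ y ∈ kerFil p ν i, pr p P y ∈ kerFil p ν i)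
    (hlp : ∀ i, LPK (MonoidAlgebra ℤ (MulAction.stabilizer Γ (p i)))) (j : ℕ)
    (B : Submodule (ZG Γ) (F Γ ι)) (hB : Stp p ν k j B) :
    ∃ B' : Submodule (ZG Γ) (F Γ ι), Stp p ν k (j + 1) B' ∧ B' ≤ B ∧ ∀ y ∈ B, ν y ∈ B' := by
  classical
  have hfin : B.FG := by
    obtain ⟨d, hd⟩ := ffr_of_parts hInd p B hB.gr hB.ffr
    exact Module.Finite.iff_fg.1 hd.finite
  obtain ⟨t, ht⟩ := hfin
  let C : Submodule (ZG Γ) (F Γ ι) := B ⊓ kerFil p ν (k - (j + 1))
  have hνC : ∀ y ∈ B, ν y ∈ C := by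
    intro y hy
    refine ⟨hB.inv y hy, ?_⟩
    have h1 := hB.le hy
    by_cases hk : k - j = 0
    · rw [hk, f0, Submodule.mem_bot] at h1
      rw [h1, map_zero]
      exact Submodule.zero_mem _
    · refine fν _ y ?_
      have h2 : k - (j + 1) + 1 = k - j := by omega
      rwa [h2]
  have hCgr : ∀ P, ∀ y ∈ C, pr p P y ∈ C := fun P y hy => ⟨hB.gr P y hy.1, fgr _ P y hy.2⟩
  have hClp : ∀ i, LP (homIn C p (p i)) := by
    intro i
    have hfree := hVec Γ (MulAction.stabilizer Γ (p i)) ι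
    refine lp_sub (hlp i) (homIn B p (p i)) (homIn C p (p i)) (hB.ffr i)
      (vecMap (MulAction.stabilizer Γ (p i)) (ν ^ (k - (j + 1))) ∘ₗ (homIn B p (p i)).subtype)
      (fun y => ?_) (nil_homIn_mono inf_le_left p (p i))
    constructor
    · intro h
      exact ⟨y.2.1, y.2.2, (nil_mem_kerFil (y := asF y.1) y.2.1).2 h⟩
    · intro h
      exact (nil_mem_kerFil (y := asF y.1) y.2.1).1 h.2.2
  obtain ⟨B', h1, h2, h3, h4⟩ := exists_pf p C hCgr hClp (ν '' (t : Set (F Γ ι)))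
    (t.finite_toSet.image _) (by
      rintro _ ⟨y, hy, rfl⟩
      refine hνC y ?_
      rw [← ht]
      exact Submodule.subset_span hy)
  have hνB : ∀ y ∈ B, ν y ∈ B' := by
    have h5 : B ≤ B'.comap ν := by
      rw [← ht, Submodule.span_le]
      intro y hy
      exact h2 ⟨y, hy, rfl⟩
    exact fun y hy => h5 hy
  exact ⟨B', ⟨h3, h1.trans inf_le_right, fun y hy => hνB y (h1 hy).1, h4⟩,
    h1.trans inf_le_left, hνB⟩

end

/-- Module NilL. -/
theorem stNilL (h1 : StFil.{u, v}) (h3 : StInd.{u, v}) (h4 : StDev.{u})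
    (h5 : StVecFree.{u}) (h6 : StHomFree.{u, v}) (h7 : StGAFree.{u}) : StNilL.{u, v} := by
  intro Γ _ K X _ r hr ι _ p ν hν htr hlp
  classical
  obtain ⟨k, hk⟩ := hν
  obtain ⟨f0, fk, fmono, fν, fgr⟩ := h1 Γ X r hr ι p ν k hk htr
  have := Fintype.ofFinite ι
  have htop : Stp p ν k 0 ⊤ := by
    refine ⟨fun _ _ _ => trivial, ?_, fun _ _ => trivial, fun i => ?_⟩
    · rw [Nat.sub_zero, fk]
    · obtain ⟨n, ⟨e⟩⟩ := h6 Γ X ι p (p i)
      exact ⟨0, Module.Finite.equiv e.symm, Module.Projective.of_equiv e.symm⟩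
  have hstep : ∀ (j : ℕ) (B : {B : Submodule (ZG Γ) (F Γ ι) // Stp p ν k j B}),
      ∃ B' : {B : Submodule (ZG Γ) (F Γ ι) // Stp p ν k (j + 1) B},
        B'.1 ≤ B.1 ∧ ∀ y ∈ B.1, ν y ∈ B'.1 := by
    intro j B
    obtain ⟨B', h8, h9, h10⟩ := exists_step h3 h5 p ν k f0 fν fgr hlp j B.1 B.2
    exact ⟨⟨B', h8⟩, h9, h10⟩
  choose nx hnx hnν using hstep
  let M : ∀ j : ℕ, {B : Submodule (ZG Γ) (F Γ ι) // Stp p ν k j B} := fun j =>
    Nat.rec ⟨⊤, htop⟩ (fun j B => nx j B) j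
  have hM0 : (M 0).1 = ⊤ := rfl
  have hMle : ∀ j, (M (j + 1)).1 ≤ (M j).1 := fun j => hnx j (M j)
  have hMν : ∀ j, ∀ y ∈ (M j).1, ν y ∈ (M (j + 1)).1 := fun j => hnν j (M j)
  have hanti : Antitone fun j => (M j).1 := antitone_nat_of_succ_le hMle
  let Fil : ℕ → Submodule (ZG Γ) (F Γ ι) := fun i => (M (k - i)).1
  have g0 : Fil 0 = ⊥ := by
    rw [eq_bot_iff]
    have h8 := (M k).2.le
    rw [Nat.sub_self, f0] at h8
    exact h8
  have gk : Fil k = ⊤ := by
    change (M (k - k)).1 = ⊤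
    rw [Nat.sub_self]
    exact hM0
  have gmono : Monotone Fil := fun a b hab => hanti (Nat.sub_le_sub_left hab k)
  have gν : ∀ i, ∀ y ∈ Fil (i + 1), ν y ∈ Fil i := by
    intro i y hy
    by_cases hik : i + 1 ≤ k
    · have h8 := hMν (k - (i + 1)) y hy
      have h9 : k - (i + 1) + 1 = k - i := by omega
      rw [h9] at h8
      exact h8
    · change ν y ∈ (M (k - i)).1
      have h9 : k - i = 0 := by omega
      rw [h9]
      exact trivial
  -- resolutions over the stabilisers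
  have hloc : ∀ (j : ι) (i : ℕ), ∃ d, FFR (MonoidAlgebra ℤ (MulAction.stabilizer Γ (p j))) d
      (homIn (Fil (i + 1)) p (p j) ⧸
        (homIn (Fil i) p (p j)).submoduleOf (homIn (Fil (i + 1)) p (p j))) := fun j i =>
    ffr_quot (nil_homIn_mono (gmono (Nat.le_succ i)) p (p j)) ((M (k - i)).2.ffr j)
      ((M (k - (i + 1))).2.ffr j)
  choose D hD using hloc
  -- a common length
  let d : ℕ := Finset.univ.sup fun j => (Finset.range k).sup (D j)
  have hd : ∀ j, ∀ i < k, D j i ≤ d := fun j i hi =>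
    (Finset.le_sup (f := D j) (Finset.mem_range.2 hi)).trans
      (Finset.le_sup (f := fun j => (Finset.range k).sup (D j)) (Finset.mem_univ j))
  have hglob : ∀ i < k, FFR (ZG Γ) d (Fil (i + 1) ⧸ (Fil i).submoduleOf (Fil (i + 1))) := by
    intro i hi
    exact h3 Γ X d ι p (Fil i) (Fil (i + 1)) (gmono (Nat.le_succ i)) (M (k - i)).2.gr
      (M (k - (i + 1))).2.gr fun j => (hD j i).mono (hd j i hi)
  have hGA : K.GA (LinearMap.id + ν) :=
    h4 (ZG Γ) K d k (F Γ ι) Fil ν inferInstance inferInstance g0 gk gmono gν hglob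
  exact (h7 (ZG Γ) K ι _).1 hGA

end Pool.Agent.Lib.MP_551055_al.LO
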