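import Mathlib
import Pool.Agent.Lib.MP_551055_al.Trim.LO.Nil
import Pool.Agent.Lib.MP_551055_al.Trim.LS.Dev
import Pool.Agent.Lib.MP_551055_al.Trim.LS.Fil
import Pool.Agent.Lib.MP_551055_al.Trim.LS.Ind
import Pool.Agent.Lib.MP_551055_al.Trim.LS.K1a
import Pool.Agent.Lib.MP_551055_al.Trim.LS.K1c
import Pool.Agent.Lib.MP_551055_al.Trim.LS.K1d
import Pool.Agent.Lib.MP_551055_al.Trim.LS.K1e
import Pool.Agent.Lib.MP_551055_al.Trim.LS.VecFree

/-!
# Locally perfect kernels: the assembled theorems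
-/

set_option autoImplicit false

namespace Pool.Agent.Lib.MP_551055_al
end Pool.Agent.Lib.MP_551055_al

namespace Pool.Agent.Lib.MP_551055_al.LS
end Pool.Agent.Lib.MP_551055_al.LS

namespace Pool.Agent.Lib.MP_551055_al.PT
end Pool.Agent.Lib.MP_551055_al.PT

namespace Pool.Agent.Lib.MP_551055_al.LO

open Pool.Agent.Lib.MP_551055_al

open Pool.Agent.Lib.MP_551055_al.LS

open Pool.Agent.Lib.MP_551055_al.PT

universe u v

theorem loNilL : StNilL.{u, v} :=
  stNilL stFil stInd (stDev (stSES stConj (stGAInd stConj)) (stGAFree stConj) stUnip)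
    stVecFree stHomFree (stGAFree stConj)

end Pool.Agent.Lib.MP_551055_al.LO
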