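import Mathlib
import Pool.Agent.Lib.MP_551055_al.Trim.LO.Base
import Pool.Agent.Lib.MP_551055_al.Trim.LS.Clo
import Pool.Agent.Lib.MP_551055_al.Trim.LS.PStmts

/-!
# The closure theorems
-/

set_option autoImplicit false

namespace Pool.Agent.Lib.MP_551055_al
end Pool.Agent.Lib.MP_551055_al

namespace Pool.Agent.Lib.MP_551055_al.LS
end Pool.Agent.Lib.MP_551055_al.LS

namespace Pool.Agent.Lib.MP_551055_al.PT
end Pool.Agent.Lib.MP_551055_al.PT

namespace Pool.Agent.Lib.MP_551055_al.LO

open Pool.Agent.Lib.MP_551055_al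

open Pool.Agent.Lib.MP_551055_al.LS

open Pool.Agent.Lib.MP_551055_al.PT

/-- The kernels over all group rings `ℤ[D × ℤ^m]` are locally perfect. -/
def LocPerf (D : Type) [Group D] : Prop := ∀ m : ℕ, LPK (MonoidAlgebra ℤ (D × ZN m))

theorem LocPerf.of_small (hP : StPFin) {D : Type} [Group D] (h : LS.Small D) : LocPerf D :=
  fun m => LPK.of_regCoh (h.regCoh hP m)

end Pool.Agent.Lib.MP_551055_al.LO
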