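import Mathlib
import Pool.Agent.Lib.MP_551055_al.Trim.LS.Pos
import Pool.Agent.Lib.MP_551055_al.Trim.LS.Stmts
import Pool.Agent.Lib.MP_551055_al.Trim.Red.Orb

/-!
# Directed unions of groups with locally perfect kernels
-/

set_option autoImplicit false

namespace Pool.Agent.Lib.MP_551055_al
end Pool.Agent.Lib.MP_551055_al

namespace Pool.Agent.Lib.MP_551055_al.LS
end Pool.Agent.Lib.MP_551055_al.LS

namespace Pool.Agent.Lib.MP_551055_al.Red
end Pool.Agent.Lib.MP_551055_al.Red

namespace Pool.Agent.Lib.MP_551055_al.LO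

open Pool.Agent.Lib.MP_551055_al

open Pool.Agent.Lib.MP_551055_al.LS

open Pool.Agent.Lib.MP_551055_al.Red (Vec)

universe u v

section

variable {Γ : Type u} [Group Γ] {X : Type v} [MulAction Γ X] {ι κ : Type}

/-- The kernel of a graded map is graded. -/
theorem pr_mem_ker {p : ι → X} {q : κ → X} {f : F Γ ι →ₗ[ZG Γ] F Γ κ} (h : Gr p q f) (P : Set X)
    (y : F Γ ι) (hy : y ∈ LinearMap.ker f) : pr p P y ∈ LinearMap.ker f := by
  rw [LinearMap.mem_ker] at hy ⊢
  rw [h, hy, map_zero]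

end

end Pool.Agent.Lib.MP_551055_al.LO
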