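import Mathlib
import Pool.Agent.Lib.MP_551055_al.Trim.LS.Clo
import Pool.Agent.Lib.MP_551055_al.Trim.LS.Final
import Pool.Agent.Lib.MP_551055_al.Trim.LS.Ind
import Pool.Agent.Lib.MP_551055_al.Trim.LS.Main
import Pool.Agent.Lib.MP_551055_al.Trim.LS.PExt
import Pool.Agent.Lib.MP_551055_al.Trim.LS.PSes
import Pool.Agent.Lib.MP_551055_al.Trim.LS.PStmts
import Pool.Agent.Lib.MP_551055_al.Trim.LS.RegSub
import Pool.Agent.Lib.MP_551055_al.Trim.LS.Stmts
import Pool.Agent.Lib.MP_551055_al.Trim.LS.TreeC
import Pool.Agent.Lib.MP_551055_al.Trim.LS.VecFree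
import Pool.Agent.Lib.MP_551055_al.Trim.PT.Clo
import Pool.Agent.Lib.MP_551055_al.Trim.PT.Hull
import Pool.Agent.Lib.MP_551055_al.Trim.PT.MV
import Pool.Agent.Lib.MP_551055_al.Trim.PT.PSub
import Pool.Agent.Lib.MP_551055_al.Trim.PT.SatMV
import Pool.Agent.Lib.MP_551055_al.Trim.PT.TreeCoh2

/-!
# Subgroups of small groups, groups acting on two trees
-/

set_option autoImplicit false

namespace Pool.Agent.Lib.MP_551055_al
end Pool.Agent.Lib.MP_551055_al

namespace Pool.Agent.Lib.MP_551055_al.LS
end Pool.Agent.Lib.MP_551055_al.LS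

namespace Pool.Agent.Lib.MP_551055_al.PT
end Pool.Agent.Lib.MP_551055_al.PT

namespace Pool.Agent.Lib.MP_551055_al.LO

open Pool.Agent.Lib.MP_551055_al

open Pool.Agent.Lib.MP_551055_al.LS

open Pool.Agent.Lib.MP_551055_al.PT

/-- Groups which embed into small groups are small. -/
theorem small_of_injective {G : Type} [Group G] (h : LS.Small G) (H : Type) [Group H]
    (f : H →* G) (hf : Function.Injective f) : LS.Small H := by
  rcases h with h | h
  · exact Or.inl (PSub.of_injective G h H f hf)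
  · refine Or.inr fun m => ?_
    let φ : H × ZN m →* G × ZN m := MonoidHom.prodMap f (MonoidHom.id _)
    have hφ : Function.Injective φ := by
      rintro ⟨a, b⟩ ⟨a', b'⟩ hab
      have h1 : f a = f a' := congrArg Prod.fst hab
      have h2 : b = b' := congrArg Prod.snd hab
      rw [hf h1, h2]
    exact RegCoh.congr (MonoidAlgebra.mapDomainRingEquiv ℤ (MonoidHom.ofInjective hφ).symm)
      (stRegSub (G × ZN m) φ.range (h m))

/-- Tame groups are small. -/
theorem small_of_tame {D : Type} [Group D] (h : Tame D) : LS.Small D :=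
  Or.inr (h.regCoh (stTreeCoh2 stTreeC (stSatMV stHull) stMV stInd stHomFree stVecFree
    (stPSes stPExt)) lsPFin)

end Pool.Agent.Lib.MP_551055_al.LO
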