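import Mathlib
import Pool.Agent.Lib.MP_551055_al.Trim.LS.Coh
import Pool.Agent.Lib.MP_551055_al.Trim.LS.Nil
import Pool.Agent.Lib.MP_551055_al.Trim.LS.Pos
import Pool.Agent.Lib.MP_551055_al.Trim.LS.Ray
import Pool.Agent.Lib.MP_551055_al.Trim.LS.Stmts
import Pool.Agent.Lib.MP_551055_al.Trim.PT.Base
import Pool.Agent.Lib.MP_551055_al.Trim.PT.SatMV
import Pool.Agent.Lib.MP_551055_al.Trim.PT.Stmts
import Pool.Agent.Lib.MP_551055_al.Trim.Red.Orb

/-!
# Groups which act on trees with regular coherent edge stabilisers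

If the kernels over the group rings of the vertex stabilisers are locally perfect, and the group
rings of the edge stabilisers are regular coherent, then the kernels over the group ring are
locally perfect.
-/

set_option autoImplicit false

namespace Pool.Agent.Lib.MP_551055_al
end Pool.Agent.Lib.MP_551055_al

namespace Pool.Agent.Lib.MP_551055_al.LS
end Pool.Agent.Lib.MP_551055_al.LS

namespace Pool.Agent.Lib.MP_551055_al.PT
end Pool.Agent.Lib.MP_551055_al.PT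

namespace Pool.Agent.Lib.MP_551055_al.Red
end Pool.Agent.Lib.MP_551055_al.Red

namespace Pool.Agent.Lib.MP_551055_al.LO

open Pool.Agent.Lib.MP_551055_al

open Pool.Agent.Lib.MP_551055_al.LS

open Pool.Agent.Lib.MP_551055_al.PT

open Pool.Agent.Lib.MP_551055_al.Red (Vec)

universe u v

section

variable {Γ : Type u} [Group Γ] {V : Type v} [MulAction Γ V] {T : SimpleGraph V} {ι κ : Type}

/-- The saturated families of a submodule, with a finite subset at one vertex. -/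
theorem sat_mv (hH : StHull.{v}) (hT : TreeAct Γ V T) {O : Set (V × V)} (hO : Ori Γ T O)
    [Finite ι] (K : Submodule (ZG Γ) (F Γ ι)) (S : Set (F Γ ι)) (hS : S.Finite)
    (hSK : S ⊆ K) :
    ∃ (o : V) (A : Set V) (n m : ℕ) (c : Fin n → V) (b : Fin m → V × V),
      Set.range c = A ∧ Set.range b = SE T O A ∧
      MV T O (sat K A) (sat K (SE T O A)) c b ∧ ∀ f ∈ S, f ∈ sat K A o := by
  classical
  have hne : Nonempty V := hT.tree.connected.nonempty
  obtain ⟨o⟩ := hne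
  have hB : (⋃ k ∈ S, ⋃ j : ι, ((fun γ : Γ => γ⁻¹ • o) '' {γ : Γ | (k j).coeff γ ≠ 0})).Finite := by
    refine Set.Finite.biUnion hS fun k _ => Set.finite_iUnion fun j => ?_
    refine Set.Finite.image _ ?_
    exact (k j).coeff.hasFiniteSupport
  obtain ⟨A, hAfin, hBA, hEC⟩ := hH V T hT.tree _ hB
  have hSE : (SE T O A).Finite := by
    refine (hAfin.prod hAfin).subset ?_
    rintro ⟨x, y⟩ h
    exact ⟨h.2.2.1, h.2.2.2⟩
  obtain ⟨n, c, hc, hcr⟩ := hAfin.fin_param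
  obtain ⟨m, b, hb, hbr⟩ := hSE.fin_param
  refine ⟨o, A, n, m, c, b, hcr, hbr, ?_, fun k hk => ⟨hSK hk, fun j γ hne => hBA ?_⟩⟩
  · refine ⟨sat_eqv K A, sat_eqv K _, ?_, ?_, hc, hb, ?_, ?_, ?_⟩
    · intro x f hf j γ hne
      rw [hcr]
      exact hf.2 j γ hne
    · intro x f hf j γ hne
      rw [hbr]
      exact hf.2 j γ hne
    · intro k
      have h1 : b k ∈ SE T O A := by
        rw [← hbr]
        exact ⟨k, rfl⟩
      exact ⟨h1.1, h1.2.1⟩
    · intro e _ _ f hf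
      refine ⟨⟨hf.1, fun j γ hne => ?_⟩, ⟨hf.1, fun j γ hne => ?_⟩⟩
      · exact (hf.2 j γ hne).2.2.1
      · exact (hf.2 j γ hne).2.2.2
    · intro e heO hadj f
      refine ⟨fun h1 h2 => ⟨h1.1, fun j γ hne => ?_⟩, fun h1 h2 => ⟨h1.1, fun j γ hne => ?_⟩⟩
      · have h3 := SatAux.cut_aux hT hEC K hadj h1 h2 j γ hne
        exact ⟨hO.inv γ⁻¹ e heO, hT.adj γ⁻¹ _ _ hadj, h3.1, h3.2⟩
      · have h3 := SatAux.cut_aux hT hEC K hadj.symm h1 h2 j γ hne
        exact ⟨hO.inv γ⁻¹ e heO, hT.adj γ⁻¹ _ _ hadj, h3.2, h3.1⟩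
  · exact Set.mem_biUnion hk (Set.mem_iUnion.2 ⟨j, ⟨γ, hne, rfl⟩⟩)

end

section Parts

variable {Γ : Type u} [Group Γ] {C : Type v} [MulAction Γ C] {ι κ : Type} {n : ℕ}

/-- The homogeneous sections of the saturated family of a kernel. -/
theorem mem_part {c : Fin n → C} {A : Set C} (hA : Set.range c = A) (f : F Γ ι →ₗ[ZG Γ] F Γ κ)
    {x : C} {y : F Γ (ι × Fin n)} (hy : In (cp ι c) {x} y) :
    y ∈ sec c (sat (LinearMap.ker f) A) (sat_eqv _ _) ↔ f (eps Γ ι n y) = 0 := by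
  rw [mem_sec_of_in hy, mem_sat, LinearMap.mem_ker]
  refine ⟨fun h => h.1, fun h => ⟨h, fun j γ hne => ?_⟩⟩
  rw [← hA]
  exact eps_coeff_ne hy hne

/-- The map which defines the part at `x`. -/
noncomputable def partMap (c : Fin n → C) (f : F Γ ι →ₗ[ZG Γ] F Γ κ) (x : C) :
    homIn (⊤ : Submodule (ZG Γ) (F Γ (ι × Fin n))) (cp ι c) x
      →ₗ[MonoidAlgebra ℤ (MulAction.stabilizer Γ x)] Vec (MulAction.stabilizer Γ x) κ :=
  vecMap (MulAction.stabilizer Γ x) (f ∘ₗ eps Γ ι n) ∘ₗ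
    (homIn (⊤ : Submodule (ZG Γ) (F Γ (ι × Fin n))) (cp ι c) x).subtype

theorem partMap_eq_zero {c : Fin n → C} {A : Set C} (hA : Set.range c = A)
    (f : F Γ ι →ₗ[ZG Γ] F Γ κ) (x : C)
    (y : homIn (⊤ : Submodule (ZG Γ) (F Γ (ι × Fin n))) (cp ι c) x) :
    partMap c f x y = 0 ↔ (y : Vec (MulAction.stabilizer Γ x) (ι × Fin n)) ∈
      homIn (sec c (sat (LinearMap.ker f) A) (sat_eqv _ _)) (cp ι c) x := by
  constructor
  · intro h
    exact ⟨y.2.1, (mem_part hA f (y := asF y.1) y.2.1).2 h⟩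
  · intro h
    exact (mem_part hA f (y := asF y.1) y.2.1).1 h.2

theorem homIn_le_top (p : ι → C) (B : Submodule (ZG Γ) (F Γ ι)) (x : C) :
    homIn B p x ≤ homIn (⊤ : Submodule (ZG Γ) (F Γ ι)) p x := fun _ hy => ⟨hy.1, trivial⟩

theorem ffr_part (hFree : StHomFree.{u, v}) (hVec : StVecFree.{u}) [Finite ι] [Finite κ]
    {c : Fin n → C} {A : Set C} (hA : Set.range c = A) (f : F Γ ι →ₗ[ZG Γ] F Γ κ) (x : C)
    (hx : RegCoh (MonoidAlgebra ℤ (MulAction.stabilizer Γ x))) :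
    ∃ d, FFR (MonoidAlgebra ℤ (MulAction.stabilizer Γ x)) d
      (homIn (sec c (sat (LinearMap.ker f) A) (sat_eqv _ _)) (cp ι c) x) := by
  have hfree := hVec Γ (MulAction.stabilizer Γ x) κ
  have hfree2 := hVec Γ (MulAction.stabilizer Γ x) (ι × Fin n)
  obtain ⟨k, ⟨e⟩⟩ := hFree Γ C (ι × Fin n) (cp ι c) x
  have h1 : Module.Finite (MonoidAlgebra ℤ (MulAction.stabilizer Γ x))
      (homIn (⊤ : Submodule (ZG Γ) (F Γ (ι × Fin n))) (cp ι c) x) := Module.Finite.equiv e.symm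
  have h2 : (LinearMap.ker (partMap c f x)).FG := fg_ker_of_free hx (partMap c f x)
  have h3 : (LinearMap.ker (partMap c f x)).map
      (homIn (⊤ : Submodule (ZG Γ) (F Γ (ι × Fin n))) (cp ι c) x).subtype =
      homIn (sec c (sat (LinearMap.ker f) A) (sat_eqv _ _)) (cp ι c) x := by
    ext y
    constructor
    · rintro ⟨z, hz, rfl⟩
      exact (partMap_eq_zero hA f x z).1 hz
    · intro hy
      exact ⟨⟨y, homIn_le_top _ _ x hy⟩, (partMap_eq_zero hA f x _).2 hy, rfl⟩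
  refine exists_ffr_of_free hx _ ?_
  rw [← h3]
  exact h2.map _

end Parts

section Main

end Main

end Pool.Agent.Lib.MP_551055_al.LO
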